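import Pool.Agent.H8.UN.Targets
import Pool.Agent.H69.Mt.Norm

/-!
# Spectra without their elements below four
-/

set_option autoImplicit false

namespace Pool.Agent.H19.UN

open Pool.Agent.H69.Sp Pool.Agent.H69.Mt Pool.Agent.H8.UN

theorem pf_f4 : N_F4 := by
  intro X hX
  refine wrapT (P := fun N _ m => (∃ a, a < N ∧ (a = 4 ∧ a ≤ m)) ∧ m ∈ X) ?_ ?_ 0 fun m hm => ?_
  · refine ((FD.ex 3 ((FD.num 4 3).and (FD.le 3 1))).ed.and (mem_ed hX 1)).congr fun N E v hv => ?_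
    simp only [Function.update_self, Function.update_of_ne, ne_eq, not_false_eq_true,
      OfNat.one_ne_ofNat]
  · rintro ⟨h, _⟩
    omega
  · have hlt : 4 < (m ^ 2 ^ 0) ^ 8 := by
      have : 2 ^ 8 ≤ m ^ 8 := Nat.pow_le_pow_left hm 8
      simp only [pow_zero, pow_one]
      omega
    constructor
    · rintro ⟨h1, h2⟩
      exact ⟨fun _ _ => False, ⟨4, hlt, rfl, h1⟩, h2⟩
    · rintro ⟨_, ⟨a, _, rfl, h1⟩, h2⟩
      exact ⟨h1, h2⟩

end Pool.Agent.H19.UN
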