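import Pool.Agent.H8.UN.Targets
import Pool.Agent.H16.TO.Asm2
import Pool.Agent.H16.TO.Suc

/-!
# One formula without counting for two linear orders
-/

set_option autoImplicit false

namespace Pool.Agent.H19.UN

open Pool.Agent.H69.Sp Pool.Agent.H69.Mt Pool.Agent.H16.TO Pool.Agent.H8.UN

theorem pf_os (hRE : N_RE) (hXS : N_XS) (hF4 : N_F4) (h2 : T_Q2) (hS : T_S1) (hP : T_PB)
    (hCD : T_CD) (hKY : T_KY) (hSU : T_SU) : N_OS := by
  obtain ⟨φ, r, hr, h3, h3', h4⟩ := h2 X0 hXS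
  refine ⟨φ, h3, h3', ?_, ?_⟩
  · intro h5
    refine hRE (specS φ) (fun n => 2 * r * n ^ r) (fun X hX => ?_) (fun n hn => by positivity)
      (fun n hn => h4 n (by omega)) h5
    have h6 := hF4 _ (hP X hX (2 * r) r (by omega) hr)
    have e : {n : ℕ | 4 ≤ n ∧ 2 * r * n ^ r ∈ X} =
        {n | 4 ≤ n ∧ n ∈ {n | 0 < n ∧ 2 * r * n ^ r ∈ X}} := by
      ext n
      simp only [Set.mem_ofPred_eq]
      constructor
      · rintro ⟨g1, g2⟩
        exact ⟨g1, by omega, g2⟩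
      · rintro ⟨g1, _, g2⟩
        exact ⟨g1, g2⟩
    rw [e]
    exact h6
  · intro h
    obtain ⟨ψ, g1, _, g3⟩ := specS_eq hCD hKY hSU
    have e : specS φ = specO 2 (.and φ ψ) := Set.ext fun n => g3 φ n
    rw [e]
    exact h _ (hS 2 _)

end Pool.Agent.H19.UN
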