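import Pool.Agent.H8.UN.Targets

/-!
# The universal spectrum is universal
-/

set_option autoImplicit false

namespace Pool.Agent.H19.UN

open Pool.Agent.H69.Sp Pool.Agent.H69.Mt Pool.Agent.H8.PL Pool.Agent.H8.UN

/-- a square plus a small number determines the square root and the number -/
theorem sq_add_inj {M M' e e' : ℕ} (h : M ^ 2 + e = M' ^ 2 + e') (h1 : e < M) (h2 : e' < M') :
    M = M' ∧ e = e' := by
  have h3 : M = M' := by
    rcases lt_trichotomy M M' with h4 | h4 | h4
    · exfalso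
      have : (M + 1) ^ 2 ≤ M' ^ 2 := Nat.pow_le_pow_left h4 2
      nlinarith
    · exact h4
    · exfalso
      have : (M' + 1) ^ 2 ≤ M ^ 2 := Nat.pow_le_pow_left h4 2
      nlinarith
  subst h3
  exact ⟨rfl, by omega⟩

theorem cde_pos {c d q : ℕ} (hd : 0 < d) : 0 < cde c d q := by
  unfold cde
  rcases Nat.eq_zero_or_pos (Nat.pair (Nat.pair c d) q) with h | h
  · exfalso
    have h1 : Nat.pair c d ≤ 0 := by
      rw [← h]; exact Nat.left_le_pair _ _
    have h2 : d ≤ Nat.pair c d := Nat.right_le_pair _ _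
    omega
  · exact h

theorem cde_inj {c d q c' d' q' : ℕ} (h : cde c d q = cde c' d' q') : c = c' ∧ d = d' ∧ q = q' := by
  unfold cde at h
  rw [Nat.pair_eq_pair, Nat.pair_eq_pair] at h
  exact ⟨h.1.1, h.1.2, h.2⟩

theorem pf_ur (hSQ : Z_SQ) (hCO : N_CO) : N_UR := by
  intro S hS
  obtain ⟨r, Q, U, Hh, Vv, hr, hQ, h1⟩ := hSQ S hS
  obtain ⟨c, d, q, hd, h2⟩ := hCO Q U Hh Vv
  have he := cde_pos (c := c) (q := q) hd
  refine ⟨(cde c d q + 1) ^ 2, 2 * r, cde c d q, ?_, by omega, fun n hn => ?_⟩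
  · nlinarith
  · have hN : 0 < n ^ r := by positivity
    have key : n ∈ S ↔ TU c d q (n ^ r) := by
      rw [← h2 (n ^ r) hN, h1 (n ^ r) (n ^ r) hN hN]
      constructor
      · intro h3
        exact ⟨n, h3, rfl, rfl⟩
      · rintro ⟨m, h3, h4, _⟩
        have : n = m := Nat.pow_left_injective (by omega : r ≠ 0) h4
        rwa [this]
    have hx : (cde c d q + 1) ^ 2 * n ^ (2 * r) + cde c d q =
        ((cde c d q + 1) * n ^ r) ^ 2 + cde c d q := by
      rw [mul_pow, ← pow_mul, mul_comm r 2]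
    rw [key, hx]
    constructor
    · intro h3
      exact ⟨c, d, q, n ^ r, hN, rfl, h3⟩
    · rintro ⟨c', d', q', N, hN', h3, h4⟩
      have g1 : cde c d q < (cde c d q + 1) * n ^ r := by
        have := Nat.le_mul_of_pos_right (cde c d q + 1) hN
        omega
      have g2 : cde c' d' q' < (cde c' d' q' + 1) * N := by
        have := Nat.le_mul_of_pos_right (cde c' d' q' + 1) hN'
        omega
      obtain ⟨g3, g4⟩ := sq_add_inj h3 g1 g2
      obtain ⟨rfl, rfl, rfl⟩ := cde_inj g4
      have g5 : n ^ r = N := Nat.eq_of_mul_eq_mul_left (by omega) g3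
      rw [g5]
      exact h4

end Pool.Agent.H19.UN
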